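import Pool.Agent.Y682.YS.Real

/-!
# The exponent of the 2-primary part of the Tate-Shafarevich group over `K(⁴√l, √q)`, `i ∈ K`
-/

set_option autoImplicit false
set_option linter.unusedSectionVars false

open NumberField IsDedekindDomain WeierstrassCurve Polynomial

namespace Pool.Agent.X253.QT

open Pool.Agent.TH841.SH.D (Pt act Gal Coch IsCoc IsCob LocTriv cob)
open Pool.Agent.TH841.NF (Sc tm tF tm_some act_some' pt_ext)
open Pool.Agent.TH841.NF.D (Sha)
open Pool.Agent.Y715.CS

/-- an isomorphism of the algebraic closures -/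
lemma exists_e4 {K F : Type} [Field K] [Field F] [Algebra K F] [Algebra.IsAlgebraic K F] :
    ∃ e : AlgebraicClosure F ≃+* AlgebraicClosure K,
      ∀ x : K, e (algebraMap F _ (algebraMap K F x)) = algebraMap K _ x := by
  have _ : IsAlgClosure K (AlgebraicClosure F) := IsAlgClosure.ofAlgebraic K F (AlgebraicClosure F)
  refine ⟨(IsAlgClosure.equiv K (AlgebraicClosure F) (AlgebraicClosure K)).toRingEquiv,
    fun x => ?_⟩
  rw [← IsScalarTower.algebraMap_apply K F (AlgebraicClosure F)]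
  exact (IsAlgClosure.equiv K (AlgebraicClosure F) (AlgebraicClosure K)).commutes x

section comb

lemma prod_upd {T : Type} [Fintype T] [DecidableEq T] {n : ℕ} {L : Type} [CommRing L] (w : T → L)
    (i0 : T) (σ : Fin n → Fin n) (h : ∀ k, w i0 ^ (σ k : ℕ) = - w i0 ^ (k : ℕ)) (ε : T → Fin n) :
    ∏ i, w i ^ ((Function.update ε i0 (σ (ε i0)) i : Fin n) : ℕ) = - ∏ i, w i ^ (ε i : ℕ) := by
  rw [← Finset.mul_prod_erase Finset.univ _ (Finset.mem_univ i0),
    ← Finset.mul_prod_erase Finset.univ (fun i => w i ^ (ε i : ℕ)) (Finset.mem_univ i0),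
    Function.update_self, h, neg_mul]
  congr 2
  refine Finset.prod_congr rfl fun i hi => ?_
  rw [Function.update_of_ne (Finset.ne_of_mem_erase hi)]

/-- the sum over the characters -/
theorem sum_zero {T4 T2 : Type} [Fintype T4] [Fintype T2] [DecidableEq T4] [DecidableEq T2]
    {L : Type} [Field L] (w4 : T4 → L) (w2 : T2 → L) (h4 : ∀ i, w4 i ^ 4 = 1)
    (h2 : ∀ i, w2 i ^ 2 = 1) (hne : (∃ i, w4 i ≠ 1) ∨ ∃ i, w2 i ≠ 1) {A : Type} [AddCommGroup A]
    (f : (T4 → Fin 4) × (T2 → Fin 2) → A)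
    (hf : ∀ ε ε', (∏ i, w4 i ^ (ε'.1 i : ℕ)) * ∏ i, w2 i ^ (ε'.2 i : ℕ) =
      -((∏ i, w4 i ^ (ε.1 i : ℕ)) * ∏ i, w2 i ^ (ε.2 i : ℕ)) → f ε' = - f ε) :
    ∑ ε, f ε = 0 := by
  classical
  have main4 : ∀ (i0 : T4) (σ : Fin 4 → Fin 4), (∀ k, w4 i0 ^ (σ k : ℕ) = - w4 i0 ^ (k : ℕ)) →
      (∀ k, σ (σ k) = k) → (∀ k, σ k ≠ k) → ∑ ε, f ε = 0 := by
    intro i0 σ h hσ hσ'
    refine Finset.sum_involution (fun ε _ => (Function.update ε.1 i0 (σ (ε.1 i0)), ε.2))
      (fun ε _ => ?_) (fun ε _ _ h1 => ?_) (fun ε _ => Finset.mem_univ _) (fun ε _ => ?_)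
    · rw [hf ε (Function.update ε.1 i0 (σ (ε.1 i0)), ε.2), add_neg_cancel]
      simp only
      rw [prod_upd w4 i0 σ h ε.1, neg_mul]
    · have h3 := congrFun (congrArg Prod.fst h1) i0
      simp only [Function.update_self] at h3
      exact hσ' _ h3
    · simp only [Function.update_self, Function.update_idem, hσ, Function.update_eq_self]
  rcases hne with ⟨i0, hi0⟩ | ⟨i0, hi0⟩
  · have h5 : (w4 i0 ^ 2 + 1) * ((w4 i0 + 1) * (w4 i0 - 1)) = 0 := by
      have := h4 i0
      linear_combination this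
    rcases mul_eq_zero.1 h5 with h6 | h6
    · have h7 : w4 i0 ^ 2 = -1 := by linear_combination h6
      refine main4 i0 (fun k => k + 2) (fun k => ?_) (fun k => ?_) (fun k => ?_)
      · fin_cases k
        · show w4 i0 ^ 2 = -w4 i0 ^ 0
          rw [h7, pow_zero]
        · show w4 i0 ^ 3 = -w4 i0 ^ 1
          linear_combination (w4 i0) * h7
        · show w4 i0 ^ 0 = -w4 i0 ^ 2
          rw [h7, pow_zero, neg_neg]
        · show w4 i0 ^ 1 = -w4 i0 ^ 3
          linear_combination (w4 i0) * h7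
      · revert k; decide
      · revert k; decide
    · have h7 : w4 i0 = -1 := by
        rcases mul_eq_zero.1 h6 with h8 | h8
        · linear_combination h8
        · exact absurd (by linear_combination h8) hi0
      refine main4 i0 (fun k => Fin.rev k) (fun k => ?_) (fun k => Fin.rev_rev k) (fun k => ?_)
      · rw [h7]
        fin_cases k
        · show (-1 : L) ^ 3 = -(-1) ^ 0
          ring
        · show (-1 : L) ^ 2 = -(-1) ^ 1
          ring
        · show (-1 : L) ^ 1 = -(-1) ^ 2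
          ring
        · show (-1 : L) ^ 0 = -(-1) ^ 3
          ring
      · revert k; decide
  · have h7 : w2 i0 = -1 := by
      have h8 : (w2 i0 + 1) * (w2 i0 - 1) = 0 := by
        have := h2 i0
        linear_combination this
      rcases mul_eq_zero.1 h8 with h8 | h8
      · linear_combination h8
      · exact absurd (by linear_combination h8) hi0
    have h : ∀ k : Fin 2, w2 i0 ^ ((Fin.rev k : Fin 2) : ℕ) = - w2 i0 ^ (k : ℕ) := by
      intro k
      rw [h7]
      fin_cases k
      · show (-1 : L) ^ 1 = -(-1) ^ 0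
        ring
      · show (-1 : L) ^ 0 = -(-1) ^ 1
        ring
    refine Finset.sum_involution (fun ε _ => (ε.1, Function.update ε.2 i0 (Fin.rev (ε.2 i0))))
      (fun ε _ => ?_) (fun ε _ _ h1 => ?_) (fun ε _ => Finset.mem_univ _) (fun ε _ => ?_)
    · rw [hf ε (ε.1, Function.update ε.2 i0 (Fin.rev (ε.2 i0))), add_neg_cancel]
      simp only
      rw [prod_upd w2 i0 Fin.rev h ε.2, mul_neg]
    · have h3 := congrFun (congrArg Prod.snd h1) i0
      simp only [Function.update_self] at h3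
      have h9 : ∀ k : Fin 2, Fin.rev k ≠ k := by decide
      exact h9 _ h3
    · simp only [Function.update_self, Function.update_idem, Fin.rev_rev, Function.update_eq_self]

end comb

/-- a field generated by fourth roots and square roots is a Galois extension -/
lemma galois4 {K F : Type} [Field K] [NumberField K] [Field F] [NumberField F] [Algebra K F]
    (I : K) (hI : I ^ 2 = -1) {T4 T2 : Type} [Fintype T4] [Fintype T2] (l : T4 → K) (q : T2 → K)
    (x4 : T4 → F) (x2 : T2 → F) (h4 : ∀ i, x4 i ^ 4 = algebraMap K F (l i))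
    (h2 : ∀ i, x2 i ^ 2 = algebraMap K F (q i))
    (hgen : ∀ S : Subfield F, (∀ k : K, algebraMap K F k ∈ S) → (∀ i, x4 i ∈ S) →
      (∀ i, x2 i ∈ S) → S = ⊤) :
    IsGalois K F := by
  classical
  have hfd : FiniteDimensional K F := finKF
  set J : F := algebraMap K F I with hJ
  have hJ2 : J ^ 2 = -1 := by rw [hJ, ← map_pow, hI, map_neg, map_one]
  set p : K[X] := (∏ i, (X ^ 4 - C (l i))) * ∏ i, (X ^ 2 - C (q i)) with hp
  have hmap : p.map (algebraMap K F) = (∏ i, (((X - C (x4 i)) * (X - C (-x4 i))) *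
      ((X - C (J * x4 i)) * (X - C (-(J * x4 i)))))) *
      ∏ i, ((X - C (x2 i)) * (X - C (-x2 i))) := by
    rw [hp, Polynomial.map_mul, Polynomial.map_prod, Polynomial.map_prod]
    congr 1
    · refine Finset.prod_congr rfl fun i _ => ?_
      have h1 : C (algebraMap K F (l i)) = C (x4 i) ^ 4 := by rw [← C_pow, h4]
      have h3 : (C J : F[X]) ^ 2 = -1 := by rw [← C_pow, hJ2, C_neg, C_1]
      rw [Polynomial.map_sub, Polynomial.map_pow, Polynomial.map_X, Polynomial.map_C,
        h1, C_neg, C_neg, C_mul]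
      linear_combination ((C (x4 i)) ^ 2 * (X ^ 2 - C (x4 i) ^ 2)) * h3
    · refine Finset.prod_congr rfl fun i _ => ?_
      have h1 : C (algebraMap K F (q i)) = C (x2 i) ^ 2 := by rw [← C_pow, h2]
      rw [Polynomial.map_sub, Polynomial.map_pow, Polynomial.map_X, Polynomial.map_C,
        h1, C_neg]
      ring
  have hp0 : p ≠ 0 := by
    rw [hp]
    exact mul_ne_zero (Finset.prod_ne_zero_iff.2 fun i _ =>
      (monic_X_pow_sub_C _ (by norm_num)).ne_zero) (Finset.prod_ne_zero_iff.2 fun i _ =>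
      (monic_X_pow_sub_C _ (by norm_num)).ne_zero)
  have hspl : IsSplittingField K F p := by
    refine ⟨?_, ?_⟩
    · rw [hmap]
      exact (Splits.prod fun i _ => ((Splits.X_sub_C _).mul (Splits.X_sub_C _)).mul
        ((Splits.X_sub_C _).mul (Splits.X_sub_C _))).mul
        (Splits.prod fun i _ => (Splits.X_sub_C _).mul (Splits.X_sub_C _))
    · have h1 := IntermediateField.adjoin_toSubalgebra_of_isAlgebraic (F := K) (E := F)
        (S := p.rootSet F) (fun y _ => (Algebra.IsAlgebraic.isAlgebraic y))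
      rw [← h1]
      have h2 : (IntermediateField.adjoin K (p.rootSet F)) = ⊤ := by
        have h3 := hgen (IntermediateField.adjoin K (p.rootSet F)).toSubfield
          (fun k => (IntermediateField.adjoin K (p.rootSet F)).algebraMap_mem k) (fun i => by
            apply IntermediateField.subset_adjoin
            rw [mem_rootSet]
            refine ⟨hp0, ?_⟩
            rw [aeval_def, eval₂_eq_eval_map, hmap, eval_mul, eval_prod]
            have h5 : ∏ i_1, eval (x4 i) ((X - C (x4 i_1)) * (X - C (-x4 i_1)) *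
                ((X - C (J * x4 i_1)) * (X - C (-(J * x4 i_1))))) = 0 := by
              refine Finset.prod_eq_zero (Finset.mem_univ i) ?_
              rw [eval_mul, eval_mul, eval_sub, eval_X, eval_C, sub_self, zero_mul, zero_mul]
            rw [h5, zero_mul]) (fun i => by
            apply IntermediateField.subset_adjoin
            rw [mem_rootSet]
            refine ⟨hp0, ?_⟩
            rw [aeval_def, eval₂_eq_eval_map, hmap, eval_mul, eval_prod Finset.univ
              (fun i => (X - C (x2 i)) * (X - C (-x2 i)))]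
            have h5 : ∏ i_1, eval (x2 i) ((X - C (x2 i_1)) * (X - C (-x2 i_1))) = 0 := by
              refine Finset.prod_eq_zero (Finset.mem_univ i) ?_
              rw [eval_mul, eval_sub, eval_X, eval_C, sub_self, zero_mul]
            rw [h5, mul_zero])
        rw [eq_top_iff]
        intro y _
        have h4 : y ∈ (IntermediateField.adjoin K (p.rootSet F)).toSubfield := by
          rw [h3]
          trivial
        exact h4
      rw [h2]
      exact IntermediateField.top_toSubalgebra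
  have hn : Normal K F := Normal.of_isSplittingField p
  exact ⟨⟩

/-- **The 2-primary part of `Ш` over `F = K(⁴√l, √q)`** of `y² = x³ + a x` is killed by `4 ^ a * 2 ^ b`,
if the 2-primary parts of all the quartic twists over `K` are trivial. -/
theorem quar {K F : Type} [Field K] [NumberField K] [Field F] [NumberField F] [Algebra K F]
    (I : K) (hI : I ^ 2 = -1) {T4 T2 : Type} [Fintype T4] [Fintype T2] (l : T4 → K) (q : T2 → K)
    (hl : ∀ i, l i ≠ 0) (hq : ∀ i, q i ≠ 0)
    (x4 : T4 → F) (x2 : T2 → F) (h4 : ∀ i, x4 i ^ 4 = algebraMap K F (l i))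
    (h2 : ∀ i, x2 i ^ 2 = algebraMap K F (q i))
    (hgen : ∀ S : Subfield F, (∀ k : K, algebraMap K F k ∈ S) → (∀ i, x4 i ∈ S) →
      (∀ i, x2 i ∈ S) → S = ⊤) (a : K)
    (hyp : ∀ ε : (T4 → Fin 4) × (T2 → Fin 2), ∀ (k : ℕ)
      (y : Sha (c4 (a * ((∏ i, l i ^ (ε.1 i : ℕ)) * ∏ i, q i ^ (2 * (ε.2 i : ℕ)))))),
        2 ^ k • y = 0 → y = 0)
    (k : ℕ) (y : Sha (c4 (algebraMap K F a))) (hy : 2 ^ k • y = 0) :
    (4 ^ Fintype.card T4 * 2 ^ Fintype.card T2) • y = 0 := by
  classical
  have hgal : IsGalois K F := galois4 I hI l q x4 x2 h4 h2 hgen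
  have hfd : FiniteDimensional K F := finKF
  obtain ⟨e, he⟩ := exists_e4 (K := K) (F := F)
  have hx4 : ∀ i, x4 i ≠ 0 := by
    intro i h0
    have h1 := h4 i
    rw [h0, zero_pow (by norm_num)] at h1
    exact hl i ((map_eq_zero _).1 h1.symm)
  have hx2 : ∀ i, x2 i ≠ 0 := by
    intro i h0
    have h1 := h2 i
    rw [h0, zero_pow (by norm_num)] at h1
    exact hq i ((map_eq_zero _).1 h1.symm)
  obtain ⟨u, hu⟩ : ∃ u : (T4 → Fin 4) × (T2 → Fin 2) → F, ∀ ε, u ε =
    (∏ i, x4 i ^ (ε.1 i : ℕ)) * ∏ i, x2 i ^ (ε.2 i : ℕ) := ⟨_, fun ε => rfl⟩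
  have hune : ∀ ε, u ε ≠ 0 := fun ε => by
    rw [hu]
    exact mul_ne_zero (Finset.prod_ne_zero_iff.2 fun i _ => pow_ne_zero _ (hx4 i))
      (Finset.prod_ne_zero_iff.2 fun i _ => pow_ne_zero _ (hx2 i))
  have hu4 : ∀ ε, u ε ^ 4 = algebraMap K F
      ((∏ i, l i ^ (ε.1 i : ℕ)) * ∏ i, q i ^ (2 * (ε.2 i : ℕ))) := by
    intro ε
    rw [hu, mul_pow, ← Finset.prod_pow, ← Finset.prod_pow, map_mul, map_prod, map_prod]
    congr 1
    · refine Finset.prod_congr rfl fun i _ => ?_
      rw [map_pow, ← h4 i, ← pow_mul, ← pow_mul, mul_comm]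
    · refine Finset.prod_congr rfl fun i _ => ?_
      rw [map_pow, ← h2 i, ← pow_mul, ← pow_mul]
      congr 1
      ring
  have S0 : ∀ ε, Sc (RingHom.id F) (u ε) (c4 (algebraMap K F a))
      ((c4 (a * ((∏ i, l i ^ (ε.1 i : ℕ)) * ∏ i, q i ^ (2 * (ε.2 i : ℕ))))).baseChange F) := by
    intro ε
    refine ⟨hune ε, ?_, ?_, ?_, ?_, ?_⟩
    · change algebraMap K F 0 = (0 : F) * _
      rw [map_zero, zero_mul]
    · change algebraMap K F 0 = (0 : F) * _
      rw [map_zero, zero_mul]
    · change algebraMap K F 0 = (0 : F) * _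
      rw [map_zero, zero_mul]
    · change algebraMap K F (a * _) = (algebraMap K F a) * _
      rw [hu4, map_mul]
    · change algebraMap K F 0 = (0 : F) * _
      rw [map_zero, zero_mul]
  have key := YS.sha_FG (K := K) (F := F) e he (T := (T4 → Fin 4) × (T2 → Fin 2))
    (fun ε => c4 (a * ((∏ i, l i ^ (ε.1 i : ℕ)) * ∏ i, q i ^ (2 * (ε.2 i : ℕ)))))
    (c4 (algebraMap K F a)) u S0 ?_ 2 hyp k y hy
  · have h1 : Fintype.card ((T4 → Fin 4) × (T2 → Fin 2)) =
        4 ^ Fintype.card T4 * 2 ^ Fintype.card T2 := by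
      rw [Fintype.card_prod, Fintype.card_fun, Fintype.card_fun, Fintype.card_fin,
        Fintype.card_fin]
    rw [← h1]
    exact key
  · intro g hg P
    set φ : AlgebraicClosure F →+* AlgebraicClosure F :=
      (e.symm : AlgebraicClosure K →+* AlgebraicClosure F).comp
        ((g : AlgebraicClosure K →+* AlgebraicClosure K).comp
          (e : AlgebraicClosure F →+* AlgebraicClosure K)) with hφ
    have hφa : ∀ x, φ x = e.symm (g (e x)) := fun x => rfl
    set m : F →+* AlgebraicClosure F := algebraMap F (AlgebraicClosure F) with hm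
    have hφK : ∀ y : K, φ (m (algebraMap K F y)) = m (algebraMap K F y) := by
      intro y
      rw [hφa, he, AlgEquiv.commutes, ← he, RingEquiv.symm_apply_apply]
    obtain ⟨w4, hw4⟩ : ∃ w : T4 → AlgebraicClosure F, ∀ i, w i = φ (m (x4 i)) / m (x4 i) :=
      ⟨_, fun i => rfl⟩
    obtain ⟨w2, hw2⟩ : ∃ w : T2 → AlgebraicClosure F, ∀ i, w i = φ (m (x2 i)) / m (x2 i) :=
      ⟨_, fun i => rfl⟩
    have hm4 : ∀ i, m (x4 i) ≠ 0 := fun i => (map_ne_zero m).2 (hx4 i)
    have hm2 : ∀ i, m (x2 i) ≠ 0 := fun i => (map_ne_zero m).2 (hx2 i)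
    have hφ4 : ∀ i, φ (m (x4 i)) = w4 i * m (x4 i) := fun i => by
      rw [hw4, div_mul_cancel₀ _ (hm4 i)]
    have hφ2 : ∀ i, φ (m (x2 i)) = w2 i * m (x2 i) := fun i => by
      rw [hw2, div_mul_cancel₀ _ (hm2 i)]
    have hw44 : ∀ i, w4 i ^ 4 = 1 := by
      intro i
      have h1 : φ (m (x4 i)) ^ 4 = m (x4 i) ^ 4 := by
        rw [← map_pow, ← map_pow, h4 i, hφK]
      rw [hw4, div_pow, h1, div_self (pow_ne_zero _ (hm4 i))]
    have hw22 : ∀ i, w2 i ^ 2 = 1 := by
      intro i
      have h1 : φ (m (x2 i)) ^ 2 = m (x2 i) ^ 2 := by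
        rw [← map_pow, ← map_pow, h2 i, hφK]
      rw [hw2, div_pow, h1, div_self (pow_ne_zero _ (hm2 i))]
    obtain ⟨W, hW⟩ : ∃ W : (T4 → Fin 4) × (T2 → Fin 2) → AlgebraicClosure F, ∀ ε, W ε =
      (∏ i, w4 i ^ (ε.1 i : ℕ)) * ∏ i, w2 i ^ (ε.2 i : ℕ) := ⟨_, fun ε => rfl⟩
    have hcu : ∀ ε, φ (m (u ε)) = W ε * m (u ε) := by
      intro ε
      rw [hu, hW, map_mul, map_mul, map_prod, map_prod, map_prod, map_prod]
      have e1 : ∏ i, φ (m (x4 i ^ (ε.1 i : ℕ))) =
          (∏ i, w4 i ^ (ε.1 i : ℕ)) * ∏ i, m (x4 i ^ (ε.1 i : ℕ)) := by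
        rw [← Finset.prod_mul_distrib]
        refine Finset.prod_congr rfl fun i _ => ?_
        rw [map_pow, map_pow, hφ4, mul_pow]
      have e2 : ∏ i, φ (m (x2 i ^ (ε.2 i : ℕ))) =
          (∏ i, w2 i ^ (ε.2 i : ℕ)) * ∏ i, m (x2 i ^ (ε.2 i : ℕ)) := by
        rw [← Finset.prod_mul_distrib]
        refine Finset.prod_congr rfl fun i _ => ?_
        rw [map_pow, map_pow, hφ2, mul_pow]
      rw [e1, e2]
      ring
    have hne : (∃ i, w4 i ≠ 1) ∨ ∃ i, w2 i ≠ 1 := by
      by_contra hcon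
      push Not at hcon
      apply hg
      have h5 := hgen (RingHom.eqLocusField (φ.comp m) m) (fun y => hφK y) (fun i => by
        show φ (m (x4 i)) = m (x4 i)
        rw [hφ4, hcon.1 i, one_mul]) (fun i => by
        show φ (m (x2 i)) = m (x2 i)
        rw [hφ2, hcon.2 i, one_mul])
      intro y
      have h7 : y ∈ RingHom.eqLocusField (φ.comp m) m := by rw [h5]; trivial
      have h8 : e.symm (g (e (m y))) = m y := h7
      have h9 := congrArg e h8
      rw [RingEquiv.apply_symm_apply] at h9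
      exact h9
    have hmu : ∀ ε, m (u ε) ≠ 0 := fun ε => (map_ne_zero m).2 (hune ε)
    refine sum_zero w4 w2 hw44 hw22 hne _ fun ε ε' hεε => ?_
    rw [← hW, ← hW] at hεε
    rcases P with _ | ⟨X, Y, h⟩
    · exact neg_zero.symm
    · have hX : ∀ T, e.symm (g (e X * (e (m (u T))) ^ 2)) * ((m (u T))⁻¹) ^ 2 =
          φ X * W T ^ 2 := by
        intro T
        rw [map_mul, map_mul, map_pow, map_pow, ← hφa, ← hφa, hcu T]
        have h2 : (m (u T)) ^ 2 * ((m (u T))⁻¹) ^ 2 = 1 := by
          rw [← mul_pow, mul_inv_cancel₀ (hmu T), one_pow]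
        linear_combination (φ X * W T ^ 2) * h2
      have hY : ∀ T, e.symm (g (e Y * (e (m (u T))) ^ 3)) * ((m (u T))⁻¹) ^ 3 =
          φ Y * W T ^ 3 := by
        intro T
        rw [map_mul, map_mul, map_pow, map_pow, ← hφa, ← hφa, hcu T]
        have h2 : (m (u T)) ^ 3 * ((m (u T))⁻¹) ^ 3 = 1 := by
          rw [← mul_pow, mul_inv_cancel₀ (hmu T), one_pow]
        linear_combination (φ Y * W T ^ 3) * h2
      rw [tm_some, act_some', tm_some, tm_some, act_some', tm_some]
      refine Eq.trans ?_ (Affine.Point.neg_some _).symm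
      refine pt_ext _ _ ?_ ?_
      · refine (hX ε').trans ?_
        rw [hεε, neg_sq]
        exact (hX ε).symm
      · refine (hY ε').trans ?_
        have h3 : ∀ z w : AlgebraicClosure F,
            ((c4 (algebraMap K F a)).baseChange (AlgebraicClosure F)).toAffine.negY z w = -w := by
          intro z w
          unfold Affine.negY
          have e1 : ((c4 (algebraMap K F a)).baseChange (AlgebraicClosure F)).toAffine.a₁ = 0 :=
            map_zero m
          have e3 : ((c4 (algebraMap K F a)).baseChange (AlgebraicClosure F)).toAffine.a₃ = 0 :=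
            map_zero m
          rw [e1, e3, zero_mul, sub_zero, sub_zero]
        refine Eq.trans ?_ (h3 _ _).symm
        rw [hεε]
        have h5 : (-W ε) ^ 3 = -(W ε ^ 3) := by ring
        rw [h5, mul_neg, neg_inj]
        exact (hY ε).symm

end Pool.Agent.X253.QT
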