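import Mathlib
import Pool.Agent.Y715.Z.Sel

/-!
# The local images of the descent by the isogeny `1 + i` on `y² = x³ + D x`, arbitrary exponents
-/

set_option autoImplicit false
set_option linter.unusedSectionVars false

open NumberField IsDedekindDomain

namespace Pool.Agent.X253.QT

open Pool.Agent.Y682 (S1 S2 vv vv_coe)
open Pool.Agent.Y699
open Pool.Agent.Y715.Z
open H385 (ZI RQ im1 nrm)

section

variable {L : Type} [Field L] (w : Valuation L (WithZero (Multiplicative ℤ)))

/-- the local image, if the elements `x` with `2 v(x) = v(D)` have odd value and `D` is not a square -/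
lemma cls (hens : ∀ t : L, w t < 1 → ∃ y : L, y ^ 2 = 1 + t) {i D m : L} (hi : i ^ 2 = -1)
    (hD0 : D ≠ 0)
    (hmid : ∀ x : L, w x ^ 2 = w D → (∀ g, g ^ 2 ≠ w x) ∧ ∀ z : L, z ^ 2 ≠ D)
    (h : S1 0 D m) : ∃ c : L, c ≠ 0 ∧ (m = c ^ 2 ∨ m = D * c ^ 2) := by
  rcases h with h | h | ⟨hm, y, hy⟩
  · exact ⟨1, one_ne_zero, Or.inl (by rw [h, one_pow])⟩
  · exact ⟨1, one_ne_zero, Or.inr (by rw [h, one_pow, mul_one])⟩
  · have hwm : w m ≠ 0 := (Valuation.ne_zero_iff _).2 hm
    have hwm2 : 0 < w m ^ 2 := pow_pos (zero_lt_iff.2 hwm) 2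
    have hwD : w D ≠ 0 := (Valuation.ne_zero_iff _).2 hD0
    rw [zero_mul, add_zero] at hy
    rcases lt_trichotomy (w m ^ 2) (w D) with h1 | h1 | h1
    · have ht : w (m ^ 2 / D) < 1 := by
        rw [map_div₀, map_pow, div_lt_iff₀ (zero_lt_iff.2 hwD), one_mul]
        exact h1
      obtain ⟨r, hr⟩ := hens _ ht
      have hr0 : r ≠ 0 := by
        rintro rfl
        have h2 : m ^ 2 / D = -1 := by linear_combination -hr
        rw [h2, Valuation.map_neg, map_one] at ht
        exact lt_irrefl _ ht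
      have h2 : D * r ^ 2 = m ^ 2 + D := by
        rw [hr]
        field_simp
        ring
      rw [← h2] at hy
      have hDr : D * r ≠ 0 := mul_ne_zero hD0 hr0
      have hy0 : y ≠ 0 := by
        rintro rfl
        rw [zero_pow two_ne_zero] at hy
        exact mul_ne_zero hm (mul_ne_zero hD0 (pow_ne_zero 2 hr0)) hy.symm
      refine ⟨y / (D * r), div_ne_zero hy0 hDr, Or.inr ?_⟩
      rw [div_pow, hy]
      field_simp
    · exfalso
      obtain ⟨hg, hz⟩ := hmid m h1
      have hle : w (m ^ 2 + D) ≤ w D := (Valuation.map_add _ _ _).trans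
        (max_le (by rw [map_pow, h1]) le_rfl)
      rcases lt_or_eq_of_le hle with h2 | h2
      · have ht : w (-((m ^ 2 + D) / D)) < 1 := by
          rw [Valuation.map_neg, map_div₀, div_lt_iff₀ (zero_lt_iff.2 hwD), one_mul]
          exact h2
        obtain ⟨r, hr⟩ := hens _ ht
        have hr2 : r ^ 2 = -(m ^ 2 / D) := by
          rw [hr]
          field_simp
          ring
        have hr0 : r ≠ 0 := by
          rintro rfl
          rw [zero_pow two_ne_zero] at hr2
          have : m ^ 2 / D = 0 := by linear_combination hr2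
          exact div_ne_zero (pow_ne_zero 2 hm) hD0 this
        apply hz (i * m / r)
        rw [div_pow, mul_pow, hi, hr2]
        field_simp
      · have e := congrArg w hy
        rw [map_pow, map_mul, h2, ← h1] at e
        apply hg (w y / w m)
        rw [div_pow, e]
        field_simp
    · have ht : w (D / m ^ 2) < 1 := by
        rw [map_div₀, map_pow, div_lt_iff₀ hwm2, one_mul]
        exact h1
      obtain ⟨r, hr⟩ := hens _ ht
      have hr0 : r ≠ 0 := by
        rintro rfl
        have h2 : D / m ^ 2 = -1 := by linear_combination -hr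
        rw [h2, Valuation.map_neg, map_one] at ht
        exact lt_irrefl _ ht
      have h2 : (m * r) ^ 2 = m ^ 2 + D := by
        rw [mul_pow, hr]
        field_simp
      rw [← h2] at hy
      have hmr : m * r ≠ 0 := mul_ne_zero hm hr0
      have hy0 : y ≠ 0 := by
        rintro rfl
        rw [zero_pow two_ne_zero] at hy
        exact mul_ne_zero hm (pow_ne_zero 2 hmr) hy.symm
      refine ⟨y / (m * r), div_ne_zero hy0 hmr, Or.inl ?_⟩
      rw [div_pow, hy]
      field_simp

end

section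

variable {K : Type} [Field K] [NumberField K] (e : ZI ≃+* 𝓞 K) {z : ZI} (hz : Prime z)

/-- the value of a product -/
lemma val_pow {k : ℕ} {r : ZI} (hr : ¬ z ∣ r) :
    (plc e hz).valuation K (em0 e (z ^ k * r)) = WithZero.exp (-(k : ℤ)) := by
  rw [map_mul, map_mul, val_one e hz hr, mul_one, map_pow, map_pow, val_z e hz, ← WithZero.exp_nsmul]
  congr 1
  simp

lemma exp_odd {g : WithZero (Multiplicative ℤ)} {k : ℤ} (hk : k % 2 = 1)
    (h : g ^ 2 = WithZero.exp k) : False := by
  have h1 := congrArg WithZero.log h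
  rw [WithZero.log_pow, WithZero.log_exp] at h1
  have h2 : (2 : ℤ) * WithZero.log g = k := by
    rw [← h1]; simp
  omega

/-- the local class at a prime that divides `A = z ^ k r`, `k = 1, 2, 3`, if in the case `k = 2` the
cofactor is not a square modulo `z` -/
lemma cls_bad (hP : PP z) (h2 : ¬ z ∣ 2) {A r : ZI} {k : ℕ} (hA : A = z ^ k * r) (hr : ¬ z ∣ r)
    (hk : k = 1 ∨ k = 2 ∨ k = 3) (hns : k = 2 → qr z r = -1)
    {m : (plc e hz).adicCompletion K} (hm : S1 0 (ph e hz (em0 e A)) m) :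
    ∃ c : (plc e hz).adicCompletion K, c ≠ 0 ∧ (m = c ^ 2 ∨ m = ph e hz (em0 e A) * c ^ 2) := by
  have hA0 : A ≠ 0 := by
    rw [hA]
    exact mul_ne_zero (pow_ne_zero _ hz.ne_zero) (fun h => hr (h ▸ dvd_zero z))
  have h2' : (plc e hz).valuation K 2 = 1 := by
    have := val_one e hz h2
    rwa [map_ofNat] at this
  have hwA : vv (plc e hz) (ph e hz (em0 e A)) = WithZero.exp (-(k : ℤ)) := by
    rw [vv_coe, hA, val_pow e hz hr]
  have hphA : ph e hz (em0 e A) ≠ 0 := (map_ne_zero _).2 (em0_ne e hA0)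
  have hi : (ph e hz (em0 e im1)) ^ 2 = -1 := by
    have h1 : (ph e hz (em0 e im1)) ^ 2 = ph e hz ((em0 e im1) ^ 2) := (map_pow _ _ _).symm
    rw [h1, Pool.Agent.Y715.Z.im1_sq, map_neg, map_one]
  refine cls (vv (plc e hz)) (fun t ht => hens_odd (plc e hz) h2' t ht) hi hphA
    (fun x hx => ?_) hm
  rw [hwA] at hx
  rcases hk with rfl | rfl | rfl
  · exact (exp_odd (k := -((1 : ℕ) : ℤ)) (by norm_num) hx).elim
  · have hx1 : vv (plc e hz) x = WithZero.exp (-1 : ℤ) := by
      have hx0 : vv (plc e hz) x ≠ 0 := by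
        intro h0
        rw [h0, zero_pow two_ne_zero] at hx
        exact WithZero.exp_ne_zero hx.symm
      have h1 := congrArg WithZero.log hx
      rw [WithZero.log_pow, WithZero.log_exp] at h1
      have h3 : (2 : ℤ) * WithZero.log (vv (plc e hz) x) = -((2 : ℕ) : ℤ) := by
        rw [← h1]; simp
      rw [← WithZero.exp_log hx0]
      congr 1
      push_cast at h3
      omega
    refine ⟨fun g hg => exp_odd (k := -1) (by norm_num) (hg.trans hx1), fun y hy => ?_⟩
    have hzne : ph e hz (em0 e z) ≠ 0 := (map_ne_zero _).2 (em0_ne e hz.ne_zero)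
    have h4 : qr z r = 1 := by
      apply qr_of_sqrt e hz hP hr (x := y / ph e hz (em0 e z))
      rw [div_pow, hy, hA, map_mul, map_mul, map_pow, map_pow]
      field_simp
    rw [hns rfl] at h4
    norm_num at h4
  · exact (exp_odd (k := -((3 : ℕ) : ℤ)) (by norm_num) hx).elim

/-- the local condition at a prime with odd exponent -/
lemma loc_odd (hP : PP z) {D R d d' D' : ZI} (hDsq : Squarefree D) (hzD : z ∣ D) (hR : R ≠ 0)
    {b w : K} (hw : w ≠ 0) (hb : b = em0 e d * w ^ 2)
    (h : ∃ y m : (plc e hz).adicCompletion K, y ≠ 0 ∧ ph e hz b * y ^ 2 = m ∧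
      ∃ c : (plc e hz).adicCompletion K, c ≠ 0 ∧
        (m = c ^ 2 ∨ m = ph e hz (em0 e (D * R ^ 2)) * c ^ 2)) :
    (¬ z ∣ d → qr z d = 1) ∧ (Squarefree d → z ∣ d → d * d' = D * D' ^ 2 → ¬ z ∣ d' → qr z d' = 1) := by
  obtain ⟨y, m, hy, hym, c0, hc0, hmc0⟩ := h
  have hD0 : D ≠ 0 := hDsq.ne_zero
  have hwD : vv (plc e hz) (ph e hz (em0 e D)) = WithZero.exp (-1 : ℤ) := by
    rw [vv_coe, val_sqf e hz hDsq hzD]
  have hphD : ph e hz (em0 e D) ≠ 0 := (map_ne_zero _).2 (em0_ne e hD0)
  have hphR : ph e hz (em0 e R) ≠ 0 := (map_ne_zero _).2 (em0_ne e hR)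
  obtain ⟨c, hc, hmc⟩ : ∃ c : (plc e hz).adicCompletion K, c ≠ 0 ∧
      (m = c ^ 2 ∨ m = ph e hz (em0 e D) * c ^ 2) := by
    rcases hmc0 with h1 | h1
    · exact ⟨c0, hc0, Or.inl h1⟩
    · refine ⟨ph e hz (em0 e R) * c0, mul_ne_zero hphR hc0, Or.inr ?_⟩
      rw [h1, map_mul, map_mul, map_pow, map_pow]
      ring
  have hpw : ph e hz w ≠ 0 := (map_ne_zero _).2 hw
  have hvy : vv (plc e hz) y ≠ 0 := (Valuation.ne_zero_iff _).2 hy
  have hvc : vv (plc e hz) c ≠ 0 := (Valuation.ne_zero_iff _).2 hc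
  have hvw : vv (plc e hz) (ph e hz w) ≠ 0 := (Valuation.ne_zero_iff _).2 hpw
  have hm2 : ph e hz (em0 e d) * (ph e hz w * y) ^ 2 = m := by
    rw [← hym, hb, map_mul, map_pow]; ring
  constructor
  · intro hzd
    rcases hmc with h1 | h1
    · apply qr_of_sqrt e hz hP hzd (x := c / (ph e hz w * y))
      rw [div_pow, ← h1, ← hm2]
      field_simp
    · exfalso
      have h3 := congrArg (vv (plc e hz)) (hm2.trans h1)
      rw [map_mul, map_mul, vv_coe, val_one e hz hzd, one_mul, map_pow, map_pow, map_mul, hwD] at h3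
      apply exp_sq (g := vv (plc e hz) (ph e hz w) * vv (plc e hz) y / vv (plc e hz) c)
      rw [div_pow, h3]
      field_simp
  · intro hd hzd hdd hzd'
    rcases hmc with h1 | h1
    · exfalso
      have h3 := congrArg (vv (plc e hz)) (hm2.trans h1)
      rw [map_mul, vv_coe, val_sqf e hz hd hzd, map_pow, map_pow, map_mul] at h3
      apply exp_sq (g := vv (plc e hz) c / (vv (plc e hz) (ph e hz w) * vv (plc e hz) y))
      rw [div_pow, ← h3]
      field_simp
    · have hpd : ph e hz (em0 e d) ≠ 0 := (map_ne_zero _).2 (em0_ne e hd.ne_zero)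
      apply qr_of_sqrt e hz hP hzd'
        (x := ph e hz (em0 e D') * (ph e hz w * y) / c)
      have h4 : ph e hz (em0 e d) * ph e hz (em0 e d') =
          ph e hz (em0 e D) * ph e hz (em0 e D') ^ 2 := by
        rw [← map_mul, ← map_mul, hdd, map_mul, map_mul, map_pow, map_pow]
      have h5 : ph e hz (em0 e d) * (ph e hz w * y) ^ 2 = ph e hz (em0 e D) * c ^ 2 := hm2.trans h1
      rw [div_pow, mul_pow]
      rw [div_eq_iff (pow_ne_zero 2 hc)]
      apply mul_left_cancel₀ (mul_ne_zero hphD hpd)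
      linear_combination (ph e hz (em0 e D) * ph e hz (em0 e D') ^ 2) * h5 -
        (ph e hz (em0 e D) * c ^ 2) * h4

/-- a prime with exponent two does not divide the class -/
lemma loc_two {A r d : ZI} (hA : A = z ^ 2 * r) (hr : ¬ z ∣ r) (hd : Squarefree d)
    {b w : K} (hw : w ≠ 0) (hb : b = em0 e d * w ^ 2)
    (h : ∃ y m : (plc e hz).adicCompletion K, y ≠ 0 ∧ ph e hz b * y ^ 2 = m ∧
      ∃ c : (plc e hz).adicCompletion K, c ≠ 0 ∧
        (m = c ^ 2 ∨ m = ph e hz (em0 e A) * c ^ 2)) : ¬ z ∣ d := by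
  intro hzd
  obtain ⟨y, m, hy, hym, c, hc, hmc⟩ := h
  have hpw : ph e hz w ≠ 0 := (map_ne_zero _).2 hw
  have hvy : vv (plc e hz) y ≠ 0 := (Valuation.ne_zero_iff _).2 hy
  have hvc : vv (plc e hz) c ≠ 0 := (Valuation.ne_zero_iff _).2 hc
  have hvw : vv (plc e hz) (ph e hz w) ≠ 0 := (Valuation.ne_zero_iff _).2 hpw
  have hm2 : ph e hz (em0 e d) * (ph e hz w * y) ^ 2 = m := by
    rw [← hym, hb, map_mul, map_pow]; ring
  have hvz : vv (plc e hz) (ph e hz (em0 e z)) = WithZero.exp (-1 : ℤ) := by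
    rw [vv_coe, val_z e hz]
  rcases hmc with h1 | h1
  · have h3 := congrArg (vv (plc e hz)) (hm2.trans h1)
    rw [map_mul, vv_coe, val_sqf e hz hd hzd, map_pow, map_pow, map_mul] at h3
    apply exp_sq (g := vv (plc e hz) c / (vv (plc e hz) (ph e hz w) * vv (plc e hz) y))
    rw [div_pow, ← h3]
    field_simp
  · have h3 := congrArg (vv (plc e hz)) (hm2.trans h1)
    have hvr : vv (plc e hz) (ph e hz (em0 e r)) = 1 := by
      rw [vv_coe, val_one e hz hr]
    rw [hA, map_mul (em0 e), map_mul (ph e hz) (em0 e (z ^ 2)), map_mul, map_mul, map_mul,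
      map_pow (em0 e), map_pow (ph e hz), map_pow, map_pow, map_pow, map_mul, hvr, mul_one,
      vv_coe, val_sqf e hz hd hzd] at h3
    apply exp_sq (g := vv (plc e hz) (ph e hz (em0 e z)) * vv (plc e hz) c /
      (vv (plc e hz) (ph e hz w) * vv (plc e hz) y))
    rw [div_pow, mul_pow (vv (plc e hz) (ph e hz (em0 e z))), ← h3]
    field_simp

end

end Pool.Agent.X253.QT
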