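import Pool.Agent.X253.QT.Tow
import Pool.Agent.Y715.QT.Seq2
import Pool.Agent.Y715.QT.SplG
import Pool.Agent.Y155.QT.Mix
import Pool.Agent.Y394.QT.Dim2
import Pool.Agent.Y427.QT.Loc2
import Pool.Agent.Y474.QT.Loc
import Pool.Agent.Y495.QT.Cnt
import Pool.Agent.Y495.QT.Pri
import Pool.Agent.Y809.QT.Eul
import Pool.Agent.Y828.QT.GM
import Pool.Agent.Y978.QT.RKG

/-!
# The towers `ℚ(i)(⁴√l, √q)`: rank, central value and the 2-primary part of Sha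
-/

set_option autoImplicit false

open NumberField IsDedekindDomain

namespace Pool.Agent.X253.QT

open Pool.Agent.Y699
open Pool.Agent.Y715.QT
open Pool.Agent.TH841.NF.D (Sha)
open Pool.Agent.Y715.CS (c4)
open H385 (ZI im1 nrm)

/-- exponents given by functions on the Gaussian integers -/
theorem sha_twist' {D p1 : ZI} {S₄ S₂ : Finset ZI} {K : Type} [Field K] [NumberField K]
    (e : ZI ≃+* 𝓞 K) (hg : Good4 D) (hp1 : p1 ∈ PD D) (h : Adm2 D p1 S₄ S₂) (m n : ZI → ℕ)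
    (hm : ∀ l ∈ S₄, m l < 4) (hn : ∀ q ∈ S₂, n q < 2) (k : ℕ)
    (y : Sha (c4 (algebraMap (𝓞 K) K (e (D * ((∏ l ∈ S₄, l ^ m l) * ∏ q ∈ S₂, q ^ (2 * n q)))))))
    (hy : 2 ^ k • y = 0) : y = 0 := by
  classical
  have key := sha_twist e hg hp1 h (fun l => ⟨m l.1, hm l.1 l.2⟩, fun q => ⟨n q.1, hn q.1 q.2⟩) k
  have h1 : ∏ l : {l : ZI // l ∈ S₄}, l.1 ^ (m l.1) = ∏ l ∈ S₄, l ^ m l :=
    Finset.prod_coe_sort S₄ (fun l => l ^ m l)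
  have h2 : ∏ q : {q : ZI // q ∈ S₂}, q.1 ^ (2 * n q.1) = ∏ q ∈ S₂, q ^ (2 * n q) :=
    Finset.prod_coe_sort S₂ (fun q => q ^ (2 * n q))
  simp only at key
  rw [h1, h2] at key
  exact key y hy

/-- **the towers** -/
theorem tower {D : ZI} (hg : Good4 D) :
    ∃ Q : Set ZI, Q.Infinite ∧ (∀ l ∈ Q, PP l ∧ ¬ l ∣ D) ∧
    ∀ S₄ : Finset ZI, (∀ l ∈ S₄, l ∈ Q) → {q | Alw D S₄ q}.Infinite ∧
      ∀ S₂ : Finset ZI, (∀ q ∈ S₂, Alw D S₄ q) →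
        (∀ (K : Type) [Field K] [NumberField K] (e : ZI ≃+* 𝓞 K) (m n : ZI → ℕ),
          (∀ l ∈ S₄, m l < 4) → (∀ q ∈ S₂, n q < 2) → ∀ (k : ℕ)
            (y : Sha (c4 (algebraMap (𝓞 K) K
              (e (D * ((∏ l ∈ S₄, l ^ m l) * ∏ q ∈ S₂, q ^ (2 * n q))))))),
            2 ^ k • y = 0 → y = 0) ∧
        ∀ (F : Type) [Field F] [NumberField F] (ι : ZI →+* 𝓞 F) (r : ZI → 𝓞 F), Gen2 ι S₄ S₂ r →
          Module.finrank ℚ F = 2 * (4 ^ S₄.card * 2 ^ S₂.card) ∧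
          Finite (Pool.Agent.Y715.QT.crv (ι D)).Point ∧
          (∃ L : ℂ → ℂ, Differentiable ℂ L ∧ L 1 ≠ 0 ∧
            ∀ s : ℂ, 3 / 2 < s.re → HasProd (fun v : {v : HeightOneSpectrum (𝓞 F) //
              ι (2 * D * ((∏ q ∈ S₄, q) * ∏ q ∈ S₂, q)) ∉ v.asIdeal} => ef (ι D) s v.1) (L s)) ∧
          Finite (AddCommGroup.primaryComponent (Sha (c4 ((ι D : 𝓞 F) : F))) 2) ∧
          ∀ (k : ℕ) (y : Sha (c4 ((ι D : 𝓞 F) : F))), 2 ^ k • y = 0 →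
            (4 ^ S₄.card * 2 ^ S₂.card) • y = 0 := by
  classical
  have hD := hg.ps.ne
  obtain ⟨p1, hp1⟩ := exists_p1 hg
  obtain ⟨Q, hQ1, hQ2, hQ3⟩ := exists_set Pool.Agent.Y495.QT.pri hD hp1
  refine ⟨Q, hQ1, fun l hl => hQ2 l hl, fun S₄ hS₄ => ⟨?_, fun S₂ hS₂ => ?_⟩⟩
  · exact alw_infinite Pool.Agent.Y495.QT.pri hg hp1 (hQ3 S₄ hS₄)
  · have hA : Adm2 D p1 S₄ S₂ := adm2_of (hQ3 S₄ hS₄) hS₂
    refine ⟨fun K _ _ e m n hm hn k y hy => sha_twist' e hg hp1 hA m n hm hn k y hy,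
      fun F _ _ ι r hr => ?_⟩
    obtain ⟨h1, h2⟩ := core2
      (Pool.Agent.Y155.QT.spl2 Pool.Agent.Y715.QT.splg Pool.Agent.Y394.QT.dim2)
      Pool.Agent.Y495.QT.cnt (Pool.Agent.Y155.QT.rk2 Pool.Agent.Y978.QT.rkg)
      Pool.Agent.Y809.QT.eul (Pool.Agent.Y427.QT.loc2 Pool.Agent.Y474.QT.loc)
      Pool.Agent.Y828.QT.gm Pool.Agent.Y261.QT.des hg hp1 hA ι hr
    exact ⟨Pool.Agent.Y394.QT.dim2 F ι S₄ S₂ r hA.a4.pp hA.pp hA.dj hr, h1, h2,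
      sha_fin hg hp1 hA ι hr, fun k y hy => sha_exp hg hp1 hA ι hr k y hy⟩

end Pool.Agent.X253.QT
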