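import Mathlib

/-!
# The Gaussian integers as the ring of integers of `ℚ(i)` (copied from the file `TH402/AK/Gauss`), and
# the embedding of `ℚ(i)` in a number field which contains the Gaussian integers
-/

set_option autoImplicit false

namespace Pool.Agent.X253.QT.QI

open NumberField

/-- the field of fractions of the Gaussian integers -/
abbrev K4 : Type := CyclotomicField 4 ℚ

instance : NeZero ((4 : ℕ) : ℚ) := ⟨by norm_num⟩

instance instCyc : IsCyclotomicExtension {4} ℚ K4 := CyclotomicField.isCyclotomicExtension 4 ℚ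

noncomputable def z4 : K4 := IsCyclotomicExtension.zeta 4 ℚ K4

theorem z4_spec : IsPrimitiveRoot z4 4 := IsCyclotomicExtension.zeta_spec 4 ℚ K4

theorem z4_sq : z4 * z4 = -1 := by
  have h1 : z4 ^ 4 = 1 := z4_spec.pow_eq_one
  have h2 : z4 ^ 2 ≠ 1 := z4_spec.pow_ne_one_of_pos_of_lt (by norm_num) (by norm_num)
  have h3 : (z4 ^ 2 - 1) * (z4 * z4 + 1) = 0 := by linear_combination h1
  rcases mul_eq_zero.1 h3 with h | h
  · exact absurd (sub_eq_zero.1 h) h2
  · linear_combination h

/-- the embedding of the Gaussian integers -/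
noncomputable def emb : GaussianInt →+* K4 :=
  Zsqrtd.lift ⟨z4, by rw [z4_sq]; norm_num⟩

theorem emb_apply (z : GaussianInt) : emb z = z.re + z.im * z4 := rfl

theorem emb_inj : Function.Injective emb := by
  refine Zsqrtd.lift_injective _ ?_
  intro n h
  nlinarith [mul_self_nonneg n]

theorem z4_integral : IsIntegral ℤ z4 := z4_spec.isIntegral (by norm_num)

theorem emb_integral (z : GaussianInt) : IsIntegral ℤ (emb z) := by
  rw [emb_apply]
  exact IsIntegral.add (isIntegral_algebraMap (R := ℤ) (x := z.re))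
    (IsIntegral.mul (isIntegral_algebraMap (R := ℤ) (x := z.im)) z4_integral)

theorem emb_surj {x : K4} (hx : IsIntegral ℤ x) : ∃ z, emb z = x := by
  have h1 := IsCyclotomicExtension.Rat.isIntegralClosure_adjoin_singleton (n := 4) (K := K4) z4_spec
  obtain ⟨y, hy⟩ := h1.isIntegral_iff.1 hx
  have h2 : Algebra.adjoin ℤ ({z4} : Set K4) ≤ (emb.toIntAlgHom).range := by
    refine Algebra.adjoin_le ?_
    intro u hu
    rw [Set.mem_singleton_iff] at hu
    rw [hu]
    exact ⟨⟨0, 1⟩, by simp [emb_apply]⟩
  obtain ⟨z, hz⟩ := h2 y.2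
  exact ⟨z, by rw [← hy]; exact hz⟩

/-- the Gaussian integers are the ring of integers of `K4` -/
noncomputable def e : GaussianInt ≃+* 𝓞 K4 :=
  RingEquiv.ofBijective
    (emb.codRestrict (integralClosure ℤ K4).toSubring emb_integral : GaussianInt →+* 𝓞 K4)
    ⟨fun a b h => emb_inj (congrArg Subtype.val h), fun x => by
      obtain ⟨z, hz⟩ := emb_surj x.2
      exact ⟨z, Subtype.ext hz⟩⟩

theorem e_coe (z : GaussianInt) : ((e z : 𝓞 K4) : K4) = emb z := rfl

/-- a homomorphism from the Gaussian integers to a domain of characteristic zero is injective -/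
theorem inj {R : Type} [CommRing R] [IsDomain R] [CharZero R] (ι : GaussianInt →+* R) :
    Function.Injective ι := by
  rw [injective_iff_map_eq_zero]
  intro g hg
  have h1 : ι (g * star g) = 0 := by rw [map_mul, hg, zero_mul]
  have h2 : g * star g = ((Zsqrtd.norm g : ℤ) : GaussianInt) := (Zsqrtd.norm_eq_mul_conj g).symm
  rw [h2, map_intCast] at h1
  exact GaussianInt.norm_eq_zero.1 (by exact_mod_cast h1)

/-- the embedding of `ℚ(i)` -/
theorem exists_emb {F : Type} [Field F] [NumberField F] (ι : GaussianInt →+* 𝓞 F) :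
    ∃ φ : K4 →+* F, ∀ g : GaussianInt, φ ((e g : 𝓞 K4) : K4) = (ι g : F) := by
  have hinj : Function.Injective ((algebraMap (𝓞 F) F).comp
      (ι.comp (e.symm : 𝓞 K4 →+* GaussianInt))) := by
    intro a b h
    have h1 : ι (e.symm a) = ι (e.symm b) := RingOfIntegers.coe_injective h
    exact e.symm.injective (inj ι h1)
  refine ⟨IsFractionRing.lift (K := K4) hinj, fun g => ?_⟩
  have h1 := IsFractionRing.lift_algebraMap (K := K4) hinj (e g)
  refine h1.trans ?_
  show ((ι (e.symm (e g)) : 𝓞 F) : F) = _
  rw [RingEquiv.symm_apply_apply]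

end Pool.Agent.X253.QT.QI
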