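import Pool.Agent.X253.QT.Loc
import Pool.Agent.Y261.QT.DES
import Pool.Agent.Y715.QT.Stm2

/-!
# The 2-torsion of Sha of `y² = x³ + D x` over `ℚ(i)`, arbitrary exponents
-/

set_option autoImplicit false
set_option linter.unusedSectionVars false

open NumberField IsDedekindDomain

namespace Pool.Agent.X253.QT

open Pool.Agent.Y682 (S1 S2 vv vv_coe IsT Zc Zc_card Zc_lower LL1 LL2 Sq quot_eq)
open Pool.Agent.Y699
open Pool.Agent.Y715.Z
open Pool.Agent.Y715.QT (GE PE S_SHA)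
open Pool.Agent.Y261.QT (DE DE_eq DE_qr DE_prim not_dvd_DE)
open H385 (ZI RQ im1 nrm)
open Pool.Agent.W164.RC (two2 prim_iff_dvd unit_norm unit_cases)

variable {ι : Type} [DecidableEq ι] [Fintype ι] {pr : ι → ZI} {V : Finset ι} {ex : ι → ℕ}

lemma PE_ne (h : GE pr V ex) : PE pr V ex ≠ 0 :=
  Finset.prod_ne_zero_iff.2 fun i _ => pow_ne_zero _ (h.pf.pp i).ne

lemma hnd (hp : PF pr) (T : Finset ι) (j : ι) (hT : j ∉ T) : ¬ pr j ∣ DD pr T := by
  intro h
  unfold DD at h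
  obtain ⟨i, hi, hji⟩ := ((hp.pp j).pr.dvd_finsetProd_iff _).1 h
  exact not_dvd_of_ne hp (fun h' => hT (by rw [h']; exact hi)) hji

lemma DD_sqf (hp : PF pr) (T : Finset ι) : Squarefree (DD pr T) := by
  unfold DD
  refine Finset.squarefree_prod_of_pairwise_isCoprime ?_ ?_
  · intro i _ j _ hij
    exact ((hp.pp i).cop (hp.pp j) fun h => hij (hp.inj h)).isRelPrime
  · intro i _
    exact (hp.pp i).pr.squarefree

section

variable {K : Type} [Field K] [NumberField K] (e : ZI ≃+* 𝓞 K)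

lemma PE_split (j : ι) (hj : j ∈ V) : PE pr V ex = pr j ^ ex j * DE pr ex (V.erase j) :=
  (Finset.mul_prod_erase V (fun i => pr i ^ ex i) hj).symm

/-- **the Selmer group** -/
theorem sel (h : GE pr V ex) {b : K} (hb : b ≠ 0)
    (hS : ∀ v : HeightOneSpectrum (𝓞 K), ∃ y m : v.adicCompletion K, y ≠ 0 ∧
      algebraMap K (v.adicCompletion K) b * y ^ 2 = m ∧
        S1 0 (algebraMap K (v.adicCompletion K) (em0 e (PE pr V ex))) m) :
    ∃ c : K, b = c ^ 2 ∨ b = em0 e (PE pr V ex) * c ^ 2 := by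
  classical
  obtain ⟨d, w, hd, hw, hbd⟩ := exists_sqf e hb
  have hp := h.pf
  set R : ZI := ∏ i ∈ V, pr i ^ (ex i / 2) with hRdef
  have hR : R ≠ 0 := Finset.prod_ne_zero_iff.2 fun i _ => pow_ne_zero _ (hp.pp i).ne
  have hAD : PE pr V ex = DD pr (Od V ex) * R ^ 2 := DE_eq ex V
  -- the local condition at a prime of `V`
  have hcls : ∀ j ∈ V, ∃ y m : (plc e (hp.pp j).pr).adicCompletion K, y ≠ 0 ∧
      ph e (hp.pp j).pr b * y ^ 2 = m ∧
      ∃ c : (plc e (hp.pp j).pr).adicCompletion K, c ≠ 0 ∧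
        (m = c ^ 2 ∨ m = ph e (hp.pp j).pr (em0 e (PE pr V ex)) * c ^ 2) := by
    intro j hj
    obtain ⟨y, m, hy, hym, hm⟩ := hS (plc e (hp.pp j).pr)
    refine ⟨y, m, hy, hym, ?_⟩
    refine cls_bad e (hp.pp j).pr (hp.pp j) (not_dvd_two (hp.pp j)) (PE_split j hj)
      (not_dvd_DE hp ex (Finset.notMem_erase j V)) (h.ex j hj) ?_ hm
    intro h2
    have hjO : j ∉ Od V ex := by
      intro h3
      have := (Finset.mem_filter.1 h3).2
      omega
    have hOe : Od (V.erase j) ex = (Od V ex).erase j := by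
      unfold Od
      rw [Finset.filter_erase]
    rw [DE_qr hp ex (Finset.notMem_erase j V), hOe, Finset.erase_eq_of_notMem hjO,
      h.tq j (Finset.mem_sdiff.2 ⟨hj, hjO⟩)]
    decide
  -- the primes of `d`
  have hprime : ∀ ρ : ZI, Prime ρ → ρ ∣ d → ∃ i ∈ Od V ex, pr i ∣ ρ := by
    intro ρ hρ hρd
    have h1 : ρ ∣ PE pr V ex := by
      by_contra hρD
      exact not_dvd_of_loc e hρ hρD hd hw hbd (hS (plc e hρ)) hρd
    unfold PE at h1
    obtain ⟨i, hi, hρi'⟩ := (hρ.dvd_finsetProd_iff _).1 h1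
    have hρi : ρ ∣ pr i := hρ.dvd_of_dvd_pow hρi'
    have h3 : pr i ∣ ρ := by
      obtain ⟨c, hc⟩ := hρi
      rcases (hp.pp i).pr.irreducible.isUnit_or_isUnit hc with h4 | h4
      · exact absurd h4 hρ.not_isUnit
      · obtain ⟨c', hc'⟩ := h4.exists_right_inv
        exact ⟨c', by rw [hc, mul_assoc, hc', mul_one]⟩
    refine ⟨i, ?_, h3⟩
    by_contra hiO
    have hi2 : ex i = 2 := by
      rcases h.ex i hi with h4 | h4 | h4
      · exact absurd (Finset.mem_filter.2 ⟨hi, by rw [h4]⟩) hiO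
      · exact h4
      · exact absurd (Finset.mem_filter.2 ⟨hi, by rw [h4]⟩) hiO
    exact loc_two e (hp.pp i).pr (A := PE pr V ex) (r := DE pr ex (V.erase i))
      (by rw [PE_split i hi, hi2]) (not_dvd_DE hp ex (Finset.notMem_erase i V)) hd hw hbd
      (hcls i hi) (h3.trans hρd)
  set V0 : Finset ι := Od V ex with hV0
  have hV0V : V0 ⊆ V := Finset.filter_subset _ _
  set S := V0.filter (fun i => pr i ∣ d) with hSdef
  have hSV : S ⊆ V0 := Finset.filter_subset _ _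
  have hSd : DD pr S ∣ d := by
    unfold DD
    refine Finset.prod_dvd_of_coprime ?_ ?_
    · intro i _ j _ hij
      exact (hp.pp i).cop (hp.pp j) fun h => hij (hp.inj h)
    · intro i hi
      exact (Finset.mem_filter.1 hi).2
  obtain ⟨u, hu⟩ := hSd
  have huu : IsUnit u := by
    by_contra hnu
    have hu0 : u ≠ 0 := by
      rintro rfl
      exact hd.ne_zero (by rw [hu, mul_zero])
    obtain ⟨ρ, hρ, hρu⟩ := WfDvdMonoid.exists_irreducible_factor hnu hu0
    have hρ' : Prime ρ := irreducible_iff_prime.1 hρ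
    have h1 : ρ ∣ d := by rw [hu]; exact hρu.mul_left _
    obtain ⟨i, hi, h3⟩ := hprime ρ hρ' h1
    have h4 : i ∈ S := Finset.mem_filter.2 ⟨hi, h3.trans h1⟩
    have h5 : pr i * pr i ∣ d := by
      rw [hu]
      refine mul_dvd_mul ?_ (h3.trans hρu)
      unfold DD
      exact Finset.dvd_prod_of_mem _ h4
    exact (hp.pp i).pr.not_isUnit (hd _ h5)
  have hun : u.norm = 1 := by
    obtain ⟨e', rfl⟩ := huu
    exact unit_norm e'
  have hDS : DD pr V0 = DD pr S * DD pr (V0 \ S) := by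
    unfold DD
    rw [mul_comm]
    exact (Finset.prod_sdiff hSV).symm
  -- the local conditions
  have hloc : ∀ j ∈ V0, (j ∉ S → qr (pr j) u * qr (pr j) (DD pr S) = 1) ∧
      (j ∈ S → qr (pr j) u * qr (pr j) (DD pr (V0 \ S)) = 1) := by
    intro j hj
    have hP := hp.pp j
    have hjD : pr j ∣ DD pr V0 := Finset.dvd_prod_of_mem pr hj
    obtain ⟨h1, h2⟩ := loc_odd (D := DD pr V0) (R := R) (d := d) (d' := u * DD pr (V0 \ S))
      (D' := u) e hP.pr hP (DD_sqf hp V0) hjD hR hw hbd (by rw [← hAD]; exact hcls j (hV0V hj))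
    constructor
    · intro hjS
      have h3 := h1 (fun h' => hjS (Finset.mem_filter.2 ⟨hj, h'⟩))
      rw [hu, qr_mul hP] at h3
      rw [mul_comm]
      exact h3
    · intro hjS
      have h3 := h2 hd (Finset.mem_filter.1 hjS).2 (by rw [hDS, hu]; ring) (by
        intro h'
        rcases hP.pr.dvd_or_dvd h' with h4 | h4
        · exact not_dvd_unit hP hun h4
        · exact hnd hp _ _ (fun h5 => (Finset.mem_sdiff.1 h5).2 hjS) h4)
      rw [qr_mul hP] at h3
      exact h3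
  obtain ⟨⟨u0, hu0⟩, hSS⟩ := ends hp (Od_wt hp h.wt) h.ker hun hSV hloc
  rcases hSS with h1 | h1
  · refine ⟨em0 e u0 * w, Or.inl ?_⟩
    have h2 : DD pr S = 1 := by rw [h1]; unfold DD; rw [Finset.prod_empty]
    rw [hbd, hu, h2, one_mul, hu0, map_pow]
    ring
  · have hRK : em0 e R ≠ 0 := em0_ne e hR
    refine ⟨em0 e u0 * w / em0 e R, Or.inr ?_⟩
    rw [hbd, hu, h1, hAD, hu0, map_mul, map_mul, map_pow, map_pow]
    field_simp
    rw [hV0]
    ring

/-- there is at most one element of Sha killed by two -/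
theorem sha_two (h : GE pr V ex) {W : WeierstrassCurve K} (hT : IsT W 0 (em0 e (PE pr V ex)))
    (x : Pool.Agent.TH841.NF.D.Sha W) (hx : 2 • x = 0) : x = 0 := by
  classical
  have hD0 : em0 e (PE pr V ex) ≠ 0 := em0_ne e (PE_ne h)
  let U : Set (Kˣ ⧸ Sq K) :=
    {(1 : Kˣ ⧸ Sq K), ((Units.mk0 (em0 e (PE pr V ex)) hD0 : Kˣ) : Kˣ ⧸ Sq K)}
  have hUf : U.Finite := Set.toFinite U
  have hfin : Finite U := hUf.to_subtype
  have hU2 : Nat.card U ≤ 2 := by
    have h1 : U.ncard ≤ 2 := by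
      refine (Set.ncard_insert_le _ _).trans ?_
      rw [Set.ncard_singleton]
    exact h1
  have key : ∀ b : Kˣ, (∃ c : K, (b : K) = c ^ 2 ∨ (b : K) = em0 e (PE pr V ex) * c ^ 2) →
      (b : Kˣ ⧸ Sq K) ∈ U := by
    rintro b ⟨c, hc⟩
    have hc0 : c ≠ 0 := by
      rintro rfl
      rcases hc with hc | hc
      · rw [zero_pow two_ne_zero] at hc; exact b.ne_zero hc
      · rw [zero_pow two_ne_zero, mul_zero] at hc; exact b.ne_zero hc
    rcases hc with hc | hc
    · left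
      have h1 : (1 : Kˣ ⧸ Sq K) = ((1 : Kˣ) : Kˣ ⧸ Sq K) := rfl
      rw [h1, eq_comm, quot_eq]
      refine ⟨Units.mk0 c hc0, Units.ext ?_⟩
      rw [Units.val_mul, Units.val_one, one_mul, Units.val_pow_eq_pow_val, Units.val_mk0, hc]
    · right
      show (b : Kˣ ⧸ Sq K) = ((Units.mk0 (em0 e (PE pr V ex)) hD0 : Kˣ) : Kˣ ⧸ Sq K)
      rw [eq_comm, quot_eq]
      refine ⟨Units.mk0 c hc0, Units.ext ?_⟩
      rw [Units.val_mul, Units.val_pow_eq_pow_val, Units.val_mk0, Units.val_mk0, hc]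
  have H1 : ∀ b : Kˣ, LL1 (0 : K) (em0 e (PE pr V ex)) (b : K) → (b : Kˣ ⧸ Sq K) ∈ U := by
    intro b hb
    apply key
    apply sel e h b.ne_zero
    intro v
    have := hb.1 v
    rwa [map_zero] at this
  have H2 : ∀ b : Kˣ, LL2 (0 : K) (em0 e (PE pr V ex)) (b : K) → (b : Kˣ ⧸ Sq K) ∈ U := by
    intro b hb
    apply key
    apply sel e h b.ne_zero
    intro v
    have := Pool.Agent.Y682.charZero_adic v
    have h1 := hb.1 v
    rw [map_zero] at h1
    refine S2_S1 (i := algebraMap K (v.adicCompletion K) (em0 e im1)) ?_ h1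
    rw [← map_pow, Pool.Agent.Y715.Z.im1_sq, map_neg, map_one]
  obtain ⟨hf, hc⟩ := Zc_card hT (U := U) (V := U) (Or.inl rfl) H1 H2
  obtain ⟨h3, h4⟩ := Zc_lower hT
  have h5 : Nat.card {x : Pool.Agent.TH841.NF.D.Sha W // 2 • x = 0} ≤ 1 := by
    have h6 : Nat.card (Zc W) ≤ 4 := hc.trans (by nlinarith)
    have h7 : 1 ≤ 2 ^ (Module.finrank ℤ (Pool.Agent.Y682.MP W)) := Nat.one_le_two_pow
    have h8 := h4.trans h6
    nlinarith
  have h6 : Subsingleton {x : Pool.Agent.TH841.NF.D.Sha W // 2 • x = 0} :=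
    Finite.card_le_one_iff_subsingleton.1 h5
  have h7 := @Subsingleton.elim _ h6 ⟨x, hx⟩ ⟨0, smul_zero _⟩
  exact congrArg Subtype.val h7

/-- the 2-primary part of Sha is trivial -/
theorem sha_pow (h : GE pr V ex) {W : WeierstrassCurve K} (hT : IsT W 0 (em0 e (PE pr V ex)))
    (n : ℕ) (x : Pool.Agent.TH841.NF.D.Sha W) (hx : 2 ^ n • x = 0) : x = 0 := by
  induction n with
  | zero => rwa [pow_zero, one_smul] at hx
  | succ n ih =>
    apply ih
    apply sha_two e h hT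
    rw [smul_smul, mul_comm, ← pow_succ]
    exact hx

end

/-- **SHA** -/
theorem t_SHA : S_SHA := by
  intro ι _ _ pr V ex h K _ _ e0 W hT n x hx
  exact sha_pow e0 h hT n x hx

end Pool.Agent.X253.QT
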