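import Pool.Agent.X253.QT.Sha
import Pool.Agent.X253.QT.Cor4
import Pool.Agent.X253.QT.QI
import Pool.Agent.Y715.QT.Fam2
import Pool.Agent.Y715.QT.Top2
import Pool.Agent.Y195.CS.FS
import Pool.Agent.TH841.SH.Pw

/-!
# The 2-primary part of Sha over the fields `ℚ(i)(⁴√l, √q)`
-/

set_option autoImplicit false
set_option linter.unusedSectionVars false

open NumberField IsDedekindDomain

namespace Pool.Agent.X253.QT

open Pool.Agent.Y682 (IsT)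
open Pool.Agent.Y699
open Pool.Agent.Y715.QT
open Pool.Agent.TH841.NF.D (Sha)
open Pool.Agent.Y715.CS (c4)
open H385 (ZI im1 nrm)

variable {D p1 : ZI} {S₄ S₂ : Finset ZI}

lemma c4_isT {K : Type} [Field K] [CharZero K] {a : K} (ha : a ≠ 0) : IsT (c4 a) 0 a where
  h1 := rfl
  h2 := rfl
  h3 := rfl
  h4 := rfl
  h6 := rfl
  hB := ha
  hD := by
    intro h
    apply ha
    have h1 : (4 : K) * a = 0 := by linear_combination -h
    exact (mul_eq_zero.1 h1).resolve_left (by norm_num)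

open Classical in
/-- the conditions for the exponents of a character -/
lemma ge2 (hg : Good4 D) (hp1 : p1 ∈ PD D) (h : Adm2 D p1 S₄ S₂) (ε : EI S₄ S₂) :
    GE (px D (S₄ ∪ S₂)) (VV D (S₄ ∪ S₂) (e2 S₄ S₂ ε)) (ex D (S₄ ∪ S₂) (e2 S₄ S₂ ε)) where
  pf := px2_PF hg.ps.ne h
  ex := ex2_cases (e2_Exq h.dj ε)
  wt := Wt_ex2 hg h (e2_Exq h.dj ε)
  ker := hker_ex2 hg h (e2_Exq h.dj ε) hp1
  tq := hT_ex2 hg h (e2_Exq h.dj ε) hp1

lemma pe2 (hg : Good4 D) (h : Adm2 D p1 S₄ S₂) (ε : EI S₄ S₂) :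
    PE (px D (S₄ ∪ S₂)) (VV D (S₄ ∪ S₂) (e2 S₄ S₂ ε)) (ex D (S₄ ∪ S₂) (e2 S₄ S₂ ε)) =
      D * ((∏ l : {l : ZI // l ∈ S₄}, l.1 ^ ((ε.1 l : Fin 4) : ℕ)) *
        ∏ q : {q : ZI // q ∈ S₂}, q.1 ^ (2 * ((ε.2 q : Fin 2) : ℕ))) := by
  rw [← prod_e2_4 ε (fun q => q), ← prod_e2_2 h.dj ε (fun q => q)]
  exact prod_ex2 hg h

/-- **all quartic twists over `ℚ(i)`** -/
theorem sha_twist {K : Type} [Field K] [NumberField K] (e : ZI ≃+* 𝓞 K) (hg : Good4 D)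
    (hp1 : p1 ∈ PD D) (h : Adm2 D p1 S₄ S₂) (ε : EI S₄ S₂) (k : ℕ)
    (y : Sha (c4 (Pool.Agent.Y715.Z.em0 e
      (D * ((∏ l : {l : ZI // l ∈ S₄}, l.1 ^ ((ε.1 l : Fin 4) : ℕ)) *
        ∏ q : {q : ZI // q ∈ S₂}, q.1 ^ (2 * ((ε.2 q : Fin 2) : ℕ)))))))
    (hy : 2 ^ k • y = 0) : y = 0 := by
  classical
  have hG := ge2 hg hp1 h ε
  have hP := pe2 hg h ε
  refine sha_pow e hG (W := c4 (Pool.Agent.Y715.Z.em0 e
      (D * ((∏ l : {l : ZI // l ∈ S₄}, l.1 ^ ((ε.1 l : Fin 4) : ℕ)) *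
        ∏ q : {q : ZI // q ∈ S₂}, q.1 ^ (2 * ((ε.2 q : Fin 2) : ℕ)))))) ?_ k y hy
  rw [← hP]
  exact c4_isT (Pool.Agent.Y715.Z.em0_ne e (PE_ne hG))

/-- **the 2-primary part of Sha over `F`** -/
theorem sha_exp (hg : Good4 D) (hp1 : p1 ∈ PD D) (h : Adm2 D p1 S₄ S₂)
    {F : Type} [Field F] [NumberField F] (ι : ZI →+* 𝓞 F) {r : ZI → 𝓞 F} (hG : Gen2 ι S₄ S₂ r)
    (k : ℕ) (y : Sha (c4 ((ι D : 𝓞 F) : F))) (hy : 2 ^ k • y = 0) :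
    (4 ^ S₄.card * 2 ^ S₂.card) • y = 0 := by
  classical
  obtain ⟨φ, hφ⟩ := QI.exists_emb ι
  let _ : Algebra QI.K4 F := φ.toAlgebra
  have hal : ∀ g : ZI, algebraMap QI.K4 F (Pool.Agent.Y715.Z.em0 QI.e g) = ((ι g : 𝓞 F) : F) := hφ
  have hI : (Pool.Agent.Y715.Z.em0 QI.e im1 : QI.K4) ^ 2 = -1 := Pool.Agent.Y715.Z.im1_sq QI.e
  have key := quar (K := QI.K4) (F := F) (Pool.Agent.Y715.Z.em0 QI.e im1) hI
    (T4 := {l : ZI // l ∈ S₄}) (T2 := {q : ZI // q ∈ S₂})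
    (fun l => Pool.Agent.Y715.Z.em0 QI.e l.1) (fun q => Pool.Agent.Y715.Z.em0 QI.e q.1)
    (fun l => Pool.Agent.Y715.Z.em0_ne QI.e (h.a4.pp l.1 l.2).ne)
    (fun q => Pool.Agent.Y715.Z.em0_ne QI.e (h.pp q.1 q.2).ne)
    (fun l => ((r l.1 : 𝓞 F) : F)) (fun q => ((r q.1 : 𝓞 F) : F))
    (fun l => by
      show ((r l.1 : 𝓞 F) : F) ^ 4 = _
      rw [hal, ← hG.1 l.1 l.2]
      exact (map_pow (algebraMap (𝓞 F) F) _ _).symm)
    (fun q => by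
      show ((r q.1 : 𝓞 F) : F) ^ 2 = _
      rw [hal, ← hG.2.1 q.1 q.2]
      exact (map_pow (algebraMap (𝓞 F) F) _ _).symm)
    (fun S hS1 hS2 hS3 => hG.2.2 S (fun g => by
        have h1 := hS1 (Pool.Agent.Y715.Z.em0 QI.e g)
        rwa [hal] at h1)
      (fun l hl => hS2 ⟨l, hl⟩) (fun q hq => hS3 ⟨q, hq⟩))
    (Pool.Agent.Y715.Z.em0 QI.e D)
    (fun ε k y hy => by
      have h1 := sha_twist (K := QI.K4) QI.e hg hp1 h ε k
      have h2 : Pool.Agent.Y715.Z.em0 QI.e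
          (D * ((∏ l : {l : ZI // l ∈ S₄}, l.1 ^ ((ε.1 l : Fin 4) : ℕ)) *
            ∏ q : {q : ZI // q ∈ S₂}, q.1 ^ (2 * ((ε.2 q : Fin 2) : ℕ)))) =
          Pool.Agent.Y715.Z.em0 QI.e D *
            ((∏ l : {l : ZI // l ∈ S₄}, Pool.Agent.Y715.Z.em0 QI.e l.1 ^ ((ε.1 l : Fin 4) : ℕ)) *
            ∏ q : {q : ZI // q ∈ S₂},
              Pool.Agent.Y715.Z.em0 QI.e q.1 ^ (2 * ((ε.2 q : Fin 2) : ℕ))) := by
        rw [map_mul, map_mul, map_prod, map_prod]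
        simp only [map_pow]
      rw [h2] at h1
      exact h1 y hy)
  rw [hal] at key
  have h3 := key k y hy
  rwa [Fintype.card_coe, Fintype.card_coe] at h3

/-- **the 2-primary part of Sha over `F` is finite** -/
theorem sha_fin (hg : Good4 D) (hp1 : p1 ∈ PD D) (h : Adm2 D p1 S₄ S₂)
    {F : Type} [Field F] [NumberField F] (ι : ZI →+* 𝓞 F) {r : ZI → 𝓞 F} (hG : Gen2 ι S₄ S₂ r) :
    Finite (AddCommGroup.primaryComponent (Sha (c4 ((ι D : 𝓞 F) : F))) 2) := by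
  have hD : ((ι D : 𝓞 F) : F) ≠ 0 := by
    intro h0
    apply hg.ps.ne
    apply QI.inj ι
    rw [map_zero]
    exact RingOfIntegers.coe_injective h0
  have h1 := Pool.Agent.Y195.CS.fs F (c4 ((ι D : 𝓞 F) : F)) 0 ((ι D : 𝓞 F) : F) (c4_isT hD)
  have hk : ∀ (k : ℕ) (y : Sha (c4 ((ι D : 𝓞 F) : F))), 2 ^ k • y = 0 →
      2 ^ (2 * S₄.card + S₂.card) • y = 0 := by
    intro k y hy
    have h2 := sha_exp hg hp1 h ι hG k y hy
    have h3 : 2 ^ (2 * S₄.card + S₂.card) = 4 ^ S₄.card * 2 ^ S₂.card := by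
      rw [pow_add, pow_mul]
      norm_num
    rw [h3]
    exact h2
  have h4 : Finite {x : Sha (c4 ((ι D : 𝓞 F) : F)) // x + x = 0} := by
    refine Finite.of_injective (β := {x : Sha (c4 ((ι D : 𝓞 F) : F)) // 2 • x = 0})
      (fun x => ⟨x.1, by rw [two_nsmul]; exact x.2⟩) ?_
    intro x y hxy
    exact Subtype.ext (congrArg (fun z : {x : Sha (c4 ((ι D : 𝓞 F) : F)) // 2 • x = 0} => z.1) hxy)
  have h5 := (Pool.Agent.TH841.SH.card_tor h4 (2 * S₄.card + S₂.card)).1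
  refine Finite.of_injective (β := {x : Sha (c4 ((ι D : 𝓞 F) : F)) //
    2 ^ (2 * S₄.card + S₂.card) • x = 0}) (fun x => ⟨x.1, ?_⟩) ?_
  · obtain ⟨k, hk'⟩ := x.2
    exact hk k x.1 hk'
  · intro x y hxy
    exact Subtype.ext (congrArg (fun z : {x : Sha (c4 ((ι D : 𝓞 F) : F)) //
      2 ^ (2 * S₄.card + S₂.card) • x = 0} => z.1) hxy)

end Pool.Agent.X253.QT
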